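import Mathlib
import Pool.Agent.H.MP_7c82b6_nt.A

namespace Pool.Agent.Results.MP_7c82b6_nt.Lim

open Finset NumberTheorySymbols Filter Topology Pool.Agent.H.MP_7c82b6_nt.A

def len (a b : ℕ) : ℕ := if h : b = 0 then 0 else len b (a % b) + 1
decreasing_by exact Nat.mod_lt _ (Nat.pos_of_ne_zero h)

def N (p : ℕ) : ℕ := ((Ioo 0 p).filter fun n : ℕ => J(n | p) = (-1) ^ len p n).card

def Nbar (p : ℕ) : ℕ := ((Ioo 0 p).filter fun n : ℕ => J(n | p) = (-1) ^ (len p n + 1)).card

lemma euclid (b : ℕ) : ∀ a, 0 < b → b < a → a.Coprime b → ∃ m k : ℕ, 2 * m ≤ a ∧ 2 * k ≤ b ∧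
    (b * m - a * k : ℤ) = (-1) ^ (len a b + 1) := by
  induction b using Nat.strong_induction_on with
  | _ b ih =>
    intro a hb hab h
    rw [len, dif_neg hb.ne']
    rcases Nat.eq_zero_or_pos (a % b) with h0 | h0
    · have : b = 1 := Nat.Coprime.eq_one_of_dvd h.symm (Nat.dvd_of_mod_eq_zero h0)
      subst this
      exact ⟨1, 0, by omega, by omega, by rw [h0, len]; simp⟩
    · obtain ⟨m, k, h1, h2, h3⟩ := ih (a % b) (Nat.mod_lt _ hb) b h0 (Nat.mod_lt _ hb)
        (by rw [Nat.Coprime, Nat.gcd_comm, ← Nat.gcd_rec]; exact h.symm)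
      have e := Nat.div_add_mod a b
      refine ⟨a / b * m + k, m, by nlinarith [Nat.mul_le_mul_left (a / b) h1], h1, ?_⟩
      rw [pow_succ, ← h3]
      have e' : (a : ℤ) = b * (a / b : ℕ) + (a % b : ℕ) := by exact_mod_cast e.symm
      push_cast at e' ⊢
      linear_combination (-(m : ℤ)) * e'

lemma counts (p : ℕ) (hp : 1 < p) : N p + Nbar p = p.totient ∧
    (N p - Nbar p : ℤ) = ∑ n ∈ (range p).filter p.Coprime, J(n | p) * (-1) ^ len p n := by
  have : NeZero p := ⟨by omega⟩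
  have hs : ∀ n : ℕ, (p.Coprime n ∧ (J(n | p) = (-1) ^ len p n ∨ J(n | p) = -(-1) ^ len p n)) ∨
      (¬ p.Coprime n ∧ J(n | p) = 0) := by
    intro n
    by_cases h : p.Coprime n
    · refine Or.inl ⟨h, ?_⟩
      rcases jacobiSym.eq_one_or_neg_one (a := n) (b := p) (by simpa using h.symm) with h | h <;>
        rcases neg_one_pow_eq_or ℤ (len p n) with h' | h' <;> simp [h, h']
    · exact Or.inr ⟨h, jacobiSym.eq_zero_iff_not_coprime.2 (by simpa [Nat.coprime_comm] using h)⟩
  have hI : Ioo 0 p = (range p).erase 0 := by ext; simp; omega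
  have h0 : ¬ p.Coprime 0 := by simp; omega
  constructor
  · rw [N, Nbar, Nat.totient, card_filter, card_filter, card_filter, ← sum_add_distrib, hI,
      ← sum_erase (range p) (a := 0) (by simp [h0])]
    refine sum_congr rfl fun n _ => ?_
    rcases neg_one_pow_eq_or ℤ (len p n) with h' | h' <;>
      rcases hs n with ⟨h, h1 | h1⟩ | ⟨h, h1⟩ <;> simp [pow_succ, h, h1, h']
  · rw [N, Nbar, card_filter, card_filter, sum_filter, ← sum_erase (range p) (a := 0) (by simp [h0])]
    push_cast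
    rw [← sum_sub_distrib, hI]
    refine sum_congr rfl fun n _ => ?_
    rcases neg_one_pow_eq_or ℤ (len p n) with h' | h' <;>
      rcases hs n with ⟨h, h1 | h1⟩ | ⟨h, h1⟩ <;> simp [pow_succ, h, h1, h']

lemma flip (p : ℕ) (hp : 1 < p) (ho : p % 2 = 1) :
    ∑ n ∈ (range p).filter p.Coprime, J(n | p) * (-1) ^ len p n =
      ∑ n ∈ range p, J(n | p) * if 2 * n < p then -1 else 1 := by
  have : NeZero p := ⟨by omega⟩
  have h1 : ∀ n ∈ (range p).filter p.Coprime, (n : ZMod p) * (n : ZMod p)⁻¹ = 1 := fun n hn =>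
    ZMod.coe_mul_inv_eq_one n (mem_filter.1 hn).2.symm
  have h2 : ∀ n ∈ (range p).filter p.Coprime, ((n : ZMod p)⁻¹).val ∈ (range p).filter p.Coprime :=
    fun n hn => mem_filter.2 ⟨mem_range.2 (ZMod.val_lt _), by
      rw [Nat.coprime_comm, ← ZMod.isUnit_iff_coprime, ZMod.natCast_zmod_val]
      exact IsUnit.of_mul_eq_one_right _ (h1 n hn)⟩
  have h3 : ∀ n ∈ (range p).filter p.Coprime, ((((n : ZMod p)⁻¹).val : ZMod p)⁻¹).val = n := by
    intro n hn
    rw [ZMod.natCast_zmod_val, ZMod.inv_eq_of_mul_eq_one p _ n (by rw [mul_comm]; exact h1 n hn),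
      ZMod.val_cast_of_lt (mem_range.1 (mem_filter.1 hn).1)]
  rw [← sum_filter_of_ne (p := p.Coprime) (s := range p) (fun n _ h => by
    by_contra hc
    exact h (by rw [jacobiSym.eq_zero_iff_not_coprime.2 (by simpa [Nat.coprime_comm] using hc),
      zero_mul]))]
  refine sum_bij' (fun n _ => ((n : ZMod p)⁻¹).val) (fun n _ => ((n : ZMod p)⁻¹).val) h2 h2 h3 h3
    fun n hn => ?_
  obtain ⟨hn1, hn2⟩ := mem_filter.1 hn
  rw [mem_range] at hn1
  have hn0 : 0 < n := Nat.pos_of_ne_zero (by rintro rfl; simp at hn2; omega)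
  congr 1
  · have e : J(n | p) * J((((n : ZMod p)⁻¹).val : ℕ) | p) = 1 := by
      rw [← jacobiSym.mul_left, ← jacobiSym.one_left p]
      apply jacobiSym.mod_left'
      rw [← ZMod.intCast_eq_intCast_iff']
      simpa using h1 n hn
    exact Int.eq_of_mul_eq_one e
  · obtain ⟨m, k, a1, -, a3⟩ := euclid n p hn0 hn1 hn2
    have a4 : (n : ZMod p) * m = (-1) ^ (len p n + 1) := by
      simpa using congrArg (Int.cast : ℤ → ZMod p) a3
    have hF := Fact.mk hp
    rcases Nat.even_or_odd (len p n) with h | h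
    · rw [h.add_one.neg_one_pow] at a4
      have hm : m ≠ 0 := by rintro rfl; simp at a4
      rw [ZMod.inv_eq_of_mul_eq_one p n ((p - m : ℕ) : ZMod p) (by
        rw [Nat.cast_sub (by omega)]; simp [a4]), ZMod.val_cast_of_lt (by omega), h.neg_one_pow,
        if_neg (by omega)]
    · rw [h.add_one.neg_one_pow] at a4
      rw [ZMod.inv_eq_of_mul_eq_one p n m a4, ZMod.val_cast_of_lt (by omega), h.neg_one_pow,
        if_pos (by omega)]

lemma diff (p y : ℕ) (ho : p % 2 = 1) (hy : 1 ≤ y) (h : 64 * y ^ 7 ≤ p) :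
    y * |(N p - Nbar p : ℤ)| ≤ 3 * p := by
  have hp : 1 < p := by have := Nat.one_le_pow 7 y hy; omega
  rw [(counts p hp).2, flip p hp ho]
  rcases (show p % 4 = 1 ∨ p % 4 = 3 by omega) with h4 | h4
  · have h0 : J(0 | p) = 0 := jacobiSym.zero_left hp
    have e2 := sum_range_reflect (fun n : ℕ => J(n | p) * if 2 * n < p then -1 else 1) (p + 1)
    rw [sum_congr rfl (g := fun n : ℕ => -(J(n | p) * if 2 * n < p then -1 else 1)) (fun m hm => by
      rw [mem_range] at hm
      rw [show ((p + 1 - 1 - m : ℕ) : ℤ) = -m + p * 1 by omega, per,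
        jacobiSym.neg _ (Nat.odd_iff.2 ho), ZMod.χ₄_nat_one_mod_four h4]
      split_ifs <;> omega), sum_neg_distrib, sum_range_succ,
      show J(p | p) = 0 by simpa [h0] using per p 0 1, zero_mul, add_zero] at e2
    rw [show ∑ n ∈ range p, (J(n | p) * if 2 * n < p then -1 else 1) = 0 by omega]
    simp
  · have e : ∑ n ∈ range p, (J(n | p) * if 2 * n < p then -1 else 1) =
        ∑ n ∈ range p, J(n | p) - 2 * ∑ n ∈ range ((p + 1) / 2), J(n | p) := by
      rw [show range ((p + 1) / 2) = (range p).filter (2 * · < p) by ext; simp; omega, sum_filter,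
        mul_sum, ← sum_sub_distrib]
      exact sum_congr rfl fun n _ => by split_ifs <;> ring
    have a1 := small p y p h4 hy h le_rfl
    have a2 := small p y ((p + 1) / 2) h4 hy h (by omega)
    rw [e]
    refine (mul_le_mul_of_nonneg_left (abs_sub _ _) (by positivity)).trans ?_
    rw [abs_mul, abs_two]
    linarith

theorem result : Tendsto (fun p : ℕ => (N p : ℝ) / Nbar p) (atTop ⊓ 𝓟 {p | Odd p}) (𝓝 1) := by
  rw [Metric.tendsto_nhds]
  intro ε hε
  obtain ⟨K, hK⟩ := exists_nat_gt (6 / ε + 3)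
  have hK3 : (3 : ℝ) < K := by linarith [div_pos (show (0 : ℝ) < 6 by norm_num) hε]
  have hK0 : 0 < K := by exact_mod_cast (show (0 : ℝ) < K by linarith)
  have h1 : ∀ᶠ L : ℕ in atTop, 128 * (K * L) ^ 7 ≤ 2 ^ L := by
    have := (tendsto_pow_const_div_const_pow_of_one_lt 7 (r := 2) (by norm_num)).eventually
      (ge_mem_nhds (show (0 : ℝ) < 1 / (128 * K ^ 7) by positivity))
    refine this.mono fun L hL => ?_
    rw [div_le_div_iff₀ (by positivity) (by positivity)] at hL
    have : (128 * (K * L) ^ 7 : ℝ) ≤ 2 ^ L := by rw [mul_pow]; linarith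
    exact_mod_cast this
  obtain ⟨L0, hL0⟩ := eventually_atTop.1 h1
  rw [eventually_inf_principal]
  filter_upwards [eventually_ge_atTop (2 ^ L0), eventually_gt_atTop 1] with p hp hp1 ho
  have a1 := hL0 (Nat.log 2 p + 1) (Nat.le_succ_of_le (Nat.le_log_of_pow_le (by norm_num) hp))
  have a2 := Nat.pow_log_le_self 2 (show p ≠ 0 by omega)
  have a3 := diff p (K * (Nat.log 2 p + 1)) (Nat.odd_iff.1 ho) (Nat.mul_pos hK0 (by omega))
    (by rw [pow_succ 2] at a1; omega)
  have a4 := tot p (by omega)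
  rw [← (counts p hp1).1] at a4
  have a5 : 0 < N p + Nbar p := by rw [(counts p hp1).1]; exact Nat.totient_pos.2 (by omega)
  generalize Nat.log 2 p + 1 = L at *
  generalize N p = A at *
  generalize Nbar p = B at *
  have b3 : (K * L : ℝ) * |(A - B : ℝ)| ≤ 3 * p := by exact_mod_cast a3
  have b4 : (p : ℝ) ≤ L * (A + B) := by exact_mod_cast a4
  have b5 : (0 : ℝ) < A + B := by exact_mod_cast a5
  have hL : (0 : ℝ) < L := by
    have : (1 : ℝ) < p := by exact_mod_cast hp1
    by_contra hc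
    nlinarith
  have b6 : K * |(A - B : ℝ)| ≤ 3 * (A + B) := le_of_mul_le_mul_left (by nlinarith) hL
  have b7 : (K - 3) * |(A - B : ℝ)| ≤ 6 * B := by linarith [le_abs_self (A - B : ℝ)]
  have hB : (0 : ℝ) < B := by
    by_contra hc
    have : (B : ℝ) = 0 := le_antisymm (not_lt.1 hc) (Nat.cast_nonneg B)
    rw [this] at b5 b7
    rw [sub_zero, abs_of_pos (by linarith)] at b7
    nlinarith
  rw [Real.dist_eq, div_sub_one hB.ne', abs_div, abs_of_pos hB, div_lt_iff₀ hB]
  have b8 : 6 < ε * (K - 3) := by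
    have : 6 / ε < K - 3 := by linarith
    rwa [div_lt_iff₀' hε] at this
  refine lt_of_mul_lt_mul_left ?_ (show (0 : ℝ) ≤ K - 3 by linarith)
  nlinarith

end Pool.Agent.Results.MP_7c82b6_nt.Lim
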